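import Pool.Agent.H.MP_294a04_nt.B

set_option autoImplicit false

namespace Pool.Agent.H.MP_8ce656_nt

open Polynomial

def Ht (P : ℤ[X]) : ℕ := (Finset.range (P.natDegree + 1)).sup (fun i => (P.coeff i).natAbs)

def SS (ζ : ℝ) (n : ℕ) : Set ℝ :=
  {w : ℝ | ∃ H₀ : ℝ, ∀ H : ℝ, H₀ ≤ H →
    ∃ α : ℝ, ∃ P : Polynomial ℤ,
      Irreducible P ∧ P.natDegree ≤ n ∧ Polynomial.aeval α P = 0 ∧
      ((Ht P : ℕ) : ℝ) ≤ H ∧ 0 < |ζ - α| ∧ |ζ - α| ≤ (((Ht P : ℕ) : ℝ))⁻¹ * H ^ (-w)}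

theorem coeff_le_Ht (P : ℤ[X]) (i : ℕ) : |(P.coeff i : ℝ)| ≤ Ht P := by
  by_cases h : i ≤ P.natDegree
  · have : (P.coeff i).natAbs ≤ Ht P :=
      Finset.le_sup (f := fun i => (P.coeff i).natAbs) (Finset.mem_range.2 (by omega))
    rw [← Int.cast_abs, Int.abs_eq_natAbs]
    exact_mod_cast this
  · rw [coeff_eq_zero_of_natDegree_lt (by omega)]; simp

theorem Ht_le (P : ℤ[X]) {B : ℝ} (h : ∀ i, |(P.coeff i : ℝ)| ≤ B) : (Ht P : ℝ) ≤ B := by
  obtain ⟨i, -, hi⟩ := Finset.exists_mem_eq_sup (Finset.range (P.natDegree + 1))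
    ⟨0, by simp⟩ (fun i => (P.coeff i).natAbs)
  have := h i
  rw [← Int.cast_abs, Int.abs_eq_natAbs, Int.cast_natCast] at this
  unfold Ht; rw [hi]; exact this

theorem one_le_Ht {P : ℤ[X]} (h : P ≠ 0) : (1 : ℝ) ≤ Ht P :=
  (Pool.Agent.H.MP_294a04_nt.one_le_abs (leadingCoeff_ne_zero.2 h)).trans (coeff_le_Ht P _)

theorem lip (P : ℤ[X]) {n : ℕ} (hn : P.natDegree ≤ n) {x y M : ℝ} (hM : 1 ≤ M) (hx : |x| ≤ M)
    (hy : |y| ≤ M) : |aeval x P - aeval y P| ≤ ((n + 1) * n * M ^ n) * Ht P * |x - y| := by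
  rw [aeval_eq_sum_range' (Nat.lt_succ_of_le hn), aeval_eq_sum_range' (Nat.lt_succ_of_le hn),
    ← Finset.sum_sub_distrib]
  refine (Finset.abs_sum_le_sum_abs _ _).trans ?_
  have : ∀ i ∈ Finset.range (n + 1), |P.coeff i • x ^ i - P.coeff i • y ^ i|
      ≤ (n * M ^ n) * Ht P * |x - y| := by
    intro i hi
    have hi' : i ≤ n := by simpa [Nat.lt_succ_iff] using hi
    rw [zsmul_eq_mul, zsmul_eq_mul, ← mul_sub, abs_mul]
    have h1 := abs_pow_sub_pow_le (a := x) (b := y) (n := i)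
    have h2 : max |x| |y| ^ (i - 1) ≤ M ^ n :=
      (pow_le_pow_left₀ (le_max_of_le_left (abs_nonneg _)) (max_le hx hy) _).trans
        (pow_le_pow_right₀ hM (by omega))
    have h3 : (i : ℝ) ≤ n := by exact_mod_cast hi'
    have h4 := coeff_le_Ht P i
    calc _ ≤ (Ht P : ℝ) * (|x - y| * n * M ^ n) := by
          refine mul_le_mul h4 (h1.trans ?_) (abs_nonneg _) (Nat.cast_nonneg _)
          gcongr
      _ = _ := by ring
  refine (Finset.sum_le_card_nsmul _ _ _ this).trans (le_of_eq ?_)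
  simp; ring

theorem root_eq {P : ℤ[X]} (hP : Irreducible P) {α : ℝ} (hα : aeval α P = 0) {a b : ℤ}
    (hr : aeval ((a : ℝ) / b) P = 0) : α = a / b := by
  have hd : P.natDegree ≠ 0 := by
    intro h
    rw [eq_C_of_natDegree_eq_zero h] at hα hP
    rw [aeval_C, eq_intCast, Int.cast_eq_zero] at hα
    rw [hα] at hP; simp at hP
  have hQ := (IsPrimitive.Int.irreducible_iff_irreducible_map_cast (hP.isPrimitive hd)).1 hP
  have hroot : (P.map (Int.castRingHom ℚ)).IsRoot ((a : ℚ) / b) := by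
    have h1 : aeval (algebraMap ℚ ℝ ((a : ℚ) / b)) P = algebraMap ℚ ℝ (aeval ((a : ℚ) / b) P) :=
      aeval_algebraMap_apply ℝ _ P
    have h2 : algebraMap ℚ ℝ ((a : ℚ) / b) = (a : ℝ) / b := by simp
    rw [h2, hr] at h1
    have h3 : aeval ((a : ℚ) / b) P = 0 := (algebraMap ℚ ℝ).injective (by rw [← h1]; simp)
    rw [IsRoot.def, eval_map]
    exact h3
  have h1 := degree_eq_one_of_irreducible_of_root hQ hroot
  rw [degree_map_eq_of_injective Int.cast_injective] at h1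
  have h2 : P.natDegree = 1 := natDegree_eq_of_degree_eq_some h1
  rw [aeval_eq_sum_range, h2] at hα hr
  simp only [Finset.sum_range_succ, Finset.range_zero, Finset.sum_empty, zsmul_eq_mul] at hα hr
  have h3 : (P.coeff 1 : ℝ) ≠ 0 := by
    have := leadingCoeff_ne_zero.2 hP.ne_zero
    rw [leadingCoeff, h2] at this
    exact_mod_cast this
  apply mul_left_cancel₀ h3
  linarith

theorem upper {ζ : ℝ} (hL : Liouville ζ) (n : ℕ) {w : ℝ} (hw : w ∈ SS ζ n) : w ≤ 1 := by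
  by_contra hc
  have w1 : 1 < w := not_le.1 hc
  obtain ⟨H₀, hH⟩ := hw
  set M : ℝ := |ζ| + 1 with hM
  have M1 : 1 ≤ M := by have := abs_nonneg ζ; linarith
  set C : ℝ := (n + 1) * n * M ^ n with hC
  have C0 : 0 ≤ C := by positivity
  obtain ⟨e, he⟩ : ∃ e : ℕ, 3 * C + |H₀| + 1 ≤ 2 ^ e := by
    obtain ⟨e, he⟩ := pow_unbounded_of_one_lt (3 * C + |H₀| + 1) (show (1 : ℝ) < 2 by norm_num)
    exact ⟨e, he.le⟩
  obtain ⟨N, hN⟩ := exists_nat_gt ((n + e) * w / (w - 1) + (n + 2 * e))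
  obtain ⟨a, b, hb, hne, hlt⟩ := hL N
  have b2 : (2 : ℝ) ≤ b := by exact_mod_cast hb
  have b0 : (0 : ℝ) < b := by linarith
  have b1 : (1 : ℝ) < b := by linarith
  set δ := |ζ - a / b| with hδ
  have δ0 : 0 < δ := abs_pos.2 (sub_ne_zero.2 hne)
  obtain ⟨l, hl⟩ : ∃ l : ℝ, (b : ℝ) ^ (-l) = δ :=
    ⟨-Real.logb b δ, by rw [neg_neg]; exact Real.rpow_logb b0 b1.ne' δ0⟩
  have hlN : (N : ℝ) < l := by
    rw [← hl, one_div, ← Real.rpow_natCast, ← Real.rpow_neg b0.le,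
      Real.rpow_lt_rpow_left_iff b1] at hlt
    linarith
  have n0 : (0 : ℝ) ≤ n := Nat.cast_nonneg _
  have e0 : (0 : ℝ) ≤ e := Nat.cast_nonneg _
  have q0 : 0 ≤ (n + e) * w / (w - 1) := by have : 0 < w - 1 := by linarith
                                            positivity
  have be : 3 * C + |H₀| + 1 ≤ (b : ℝ) ^ (e : ℝ) := by
    rw [Real.rpow_natCast]; exact he.trans (pow_le_pow_left₀ (by norm_num) b2 _)
  set H := (b : ℝ) ^ (l - n - e) with hHdef
  have H1 : (b : ℝ) ^ (e : ℝ) ≤ H := Real.rpow_le_rpow_of_exponent_le b1.le (by linarith)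
  obtain ⟨α, P, hP, hd, hα, hh, -, hle⟩ := hH H (by have := le_abs_self H₀; linarith)
  have h1 := one_le_Ht hP.ne_zero
  have Hw : H ^ (-w) < δ := by
    rw [hHdef, ← Real.rpow_mul b0.le, ← hl, Real.rpow_lt_rpow_left_iff b1]
    have : (n + e) * w / (w - 1) < l := by linarith
    rw [div_lt_iff₀ (by linarith)] at this
    linarith
  have Hw0 : 0 < H ^ (-w) := Real.rpow_pos_of_pos (by linarith [abs_nonneg H₀]) _
  have hle' : (Ht P : ℝ) * |ζ - α| ≤ H ^ (-w) := by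
    rw [inv_mul_eq_div, le_div_iff₀ (by linarith)] at hle; linarith
  have hz := abs_nonneg (ζ - α)
  have d1 : |ζ - α| < δ := by nlinarith
  have δ1 : δ ≤ 1 := by
    rw [← hl]; exact Real.rpow_le_one_of_one_le_of_nonpos b1.le (by linarith)
  have hne2 : aeval ((a : ℝ) / b) P ≠ 0 := by
    intro h0
    rw [root_eq hP hα h0] at d1
    exact lt_irrefl _ d1
  have k1 := one_le_pow_mul_abs_eval_div (K := ℝ) (f := P) (a := a) (b := b) (by omega)
    (by rwa [eval_map_algebraMap])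
  rw [eval_map_algebraMap] at k1
  have k2 := lip P hd M1 (x := (a : ℝ) / b) (y := α)
    (by have := abs_sub_abs_le_abs_sub ((a : ℝ) / b) ζ; rw [abs_sub_comm] at this; linarith)
    (by have := abs_sub_abs_le_abs_sub α ζ; rw [abs_sub_comm] at this; linarith)
  rw [hα, sub_zero, ← hC] at k2
  have k3 : |(a : ℝ) / b - α| ≤ 2 * δ := by
    have := abs_sub_le ((a : ℝ) / b) ζ α
    rw [abs_sub_comm ((a : ℝ) / b) ζ] at this
    linarith
  have k4 : (b : ℝ) ^ P.natDegree ≤ (b : ℝ) ^ (n : ℝ) := by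
    rw [Real.rpow_natCast]; exact pow_le_pow_right₀ b1.le hd
  have k5 : (b : ℝ) ^ (n : ℝ) * H * δ * (b : ℝ) ^ (e : ℝ) = 1 := by
    rw [hHdef, ← hl, ← Real.rpow_add b0, ← Real.rpow_add b0, ← Real.rpow_add b0]
    have : (n : ℝ) + (l - n - e) + -l + e = 0 := by ring
    rw [this, Real.rpow_zero]
  have bn : 0 < (b : ℝ) ^ (n : ℝ) := Real.rpow_pos_of_pos b0 _
  have k6 : 1 ≤ (b : ℝ) ^ (n : ℝ) * (C * H * (2 * δ)) := by
    refine k1.trans (mul_le_mul k4 (k2.trans ?_) (abs_nonneg _) bn.le)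
    gcongr
  have k7 : 0 < (b : ℝ) ^ (n : ℝ) * H * δ := by
    have : 0 < H := by linarith [abs_nonneg H₀]
    positivity
  have := abs_nonneg H₀
  nlinarith

theorem lower {ζ : ℝ} (hI : Irrational ζ) {n : ℕ} (hn : 1 ≤ n) {w : ℝ} (hw : w < 1) : w ∈ SS ζ n := by
  set M : ℝ := |ζ| + 1 with hM
  have M1 : 1 ≤ M := by have := abs_nonneg ζ; linarith
  refine ⟨max M ((M ^ 2) ^ (1 / (1 - w))), fun H hH => ?_⟩
  have HM : M ≤ H := (le_max_left _ _).trans hH
  have H0 : 0 < H := by linarith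
  have H2 : M ^ 2 ≤ H ^ (1 - w) := by
    have := Real.rpow_le_rpow (by positivity) ((le_max_right _ _).trans hH) (show 0 ≤ 1 - w by linarith)
    rwa [← Real.rpow_mul (by positivity), one_div_mul_cancel (by linarith), Real.rpow_one] at this
  have Q1 : 1 ≤ H / M := by rw [le_div_iff₀ (by linarith)]; linarith
  obtain ⟨r, hr1, hr2⟩ := Real.exists_rat_abs_sub_le_and_den_le ζ (n := ⌊H / M⌋₊)
    (Nat.floor_pos.2 Q1)
  have d1 : (1 : ℝ) ≤ r.den := by exact_mod_cast r.pos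
  have d2 : (r.den : ℝ) ≤ H / M := (Nat.cast_le.2 hr2).trans (Nat.floor_le (by linarith))
  have d3 := Nat.lt_floor_add_one (H / M)
  have hnum : (r.num : ℝ) = r * r.den := by exact_mod_cast (Rat.mul_den_eq_num r).symm
  have hr3 : |ζ - r| * r.den * H ≤ M := by
    rw [le_div_iff₀ (by positivity)] at hr1
    rw [div_lt_iff₀ (by linarith)] at d3
    have : 0 ≤ |ζ - r| * r.den := by positivity
    nlinarith
  have hr4 : |(r : ℝ)| ≤ M := by
    have := abs_sub_abs_le_abs_sub (r : ℝ) ζ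
    rw [abs_sub_comm] at this
    have h1 : |ζ - r| ≤ 1 := by
      refine hr1.trans ?_
      rw [div_le_one (by positivity)]
      have : (0 : ℝ) ≤ ⌊H / M⌋₊ := Nat.cast_nonneg _
      nlinarith
    linarith
  have hirr : Irreducible (C (r.den : ℤ) * X + C (-r.num)) :=
    irreducible_C_mul_X_add_C (by exact_mod_cast r.pos.ne') (by
      have := (Rat.isCoprime_num_den r).symm.neg_right
      exact this.isRelPrime)
  have hh : (Ht (C (r.den : ℤ) * X + C (-r.num)) : ℝ) ≤ M * r.den := by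
    apply Ht_le
    intro i
    rcases i with _ | _ | i
    · simp only [coeff_add, coeff_C_mul, coeff_X_zero, coeff_C_zero, mul_zero, zero_add, Int.cast_neg,
        abs_neg]
      rw [hnum, abs_mul, Nat.abs_cast]; gcongr
    · simp only [zero_add, coeff_add, coeff_C_mul, coeff_X_one, coeff_C_succ, mul_one, add_zero,
        Int.cast_natCast, Nat.abs_cast]
      nlinarith
    · simp only [coeff_add, coeff_C_mul, coeff_C_succ, coeff_X]
      simp; positivity
  have h1 := one_le_Ht hirr.ne_zero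
  refine ⟨r, _, hirr, (natDegree_linear_le).trans hn, ?_, ?_, ?_, ?_⟩
  · simp [hnum, mul_comm]
  · rw [le_div_iff₀ (by linarith)] at d2; linarith
  · exact abs_pos.2 (sub_ne_zero.2 (hI.ne_rat r))
  · rw [inv_mul_eq_div, le_div_iff₀ (by linarith)]
    have e : H ^ (1 - w) = H * H ^ (-w) := by
      rw [sub_eq_add_neg, Real.rpow_add H0, Real.rpow_one]
    rw [e] at H2
    have hz := abs_nonneg (ζ - r)
    refine le_of_mul_le_mul_left ?_ H0
    calc _ ≤ H * (|ζ - r| * (M * r.den)) := by gcongr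
      _ = M * (|ζ - r| * r.den * H) := by ring
      _ ≤ M * M := by gcongr
      _ ≤ _ := by nlinarith

end Pool.Agent.H.MP_8ce656_nt
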