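import Pool.Agent.H.MP_8ce656_nt.A

set_option autoImplicit false

namespace Pool.Agent.H.MP_8ce656_nt

open Polynomial
open Pool.Agent.H.MP_294a04_nt

theorem box (ζ : ℝ) {A Y : ℝ} (hA : 1 ≤ A) (hY : 1 ≤ Y) :
    ∃ a b c : ℤ, (a ≠ 0 ∨ b ≠ 0) ∧ |(a : ℝ)| ≤ A ∧ |(b : ℝ)| ≤ Y ∧
      |a * ζ ^ 2 + b * ζ + c| * (A * Y) ≤ 2 := by
  set A' := ⌊A⌋₊
  set Y' := ⌊Y⌋₊
  have a1 : 1 ≤ A' := Nat.floor_pos.2 hA
  have y1 : 1 ≤ Y' := Nat.floor_pos.2 hY
  have a2 : (A' : ℝ) ≤ A := Nat.floor_le (by linarith)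
  have y2 : (Y' : ℝ) ≤ Y := Nat.floor_le (by linarith)
  have a3 := Nat.lt_floor_add_one A
  have y3 := Nat.lt_floor_add_one Y
  obtain ⟨M, hM⟩ : ∃ M : ℕ, M + 1 = (A' + 1) * (Y' + 1) := ⟨(A' + 1) * (Y' + 1) - 1, by
    have : 0 < (A' + 1) * (Y' + 1) := by positivity
    omega⟩
  have M3 : 3 ≤ M := by nlinarith
  have M0 : (0 : ℝ) < M := by exact_mod_cast (by omega : 0 < M)
  let g : ℕ × ℕ → ℝ := fun p => p.1 * ζ ^ 2 + p.2 * ζ
  obtain ⟨p, hp, q, hq, hne, heq⟩ := Finset.exists_ne_map_eq_of_card_lt_of_maps_to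
    (s := Finset.range (A' + 1) ×ˢ Finset.range (Y' + 1)) (t := Finset.range M)
    (by simp; omega) (f := fun p => ⌊Int.fract (g p) * M⌋₊) (by
      intro p _
      simp only [Finset.coe_range, Set.mem_Iio]
      rw [Nat.floor_lt (mul_nonneg (Int.fract_nonneg _) M0.le)]
      have := Int.fract_lt_one (g p)
      nlinarith)
  simp only [Finset.mem_product, Finset.mem_range] at hp hq
  have f1 := Nat.floor_le (mul_nonneg (Int.fract_nonneg (g p)) M0.le)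
  have f2 := Nat.lt_floor_add_one (Int.fract (g p) * M)
  have f3 := Nat.floor_le (mul_nonneg (Int.fract_nonneg (g q)) M0.le)
  have f4 := Nat.lt_floor_add_one (Int.fract (g q) * M)
  rw [heq] at f1 f2
  have hd : |Int.fract (g p) - Int.fract (g q)| * M ≤ 1 := by
    rw [← abs_of_pos M0, ← abs_mul, abs_le]; constructor <;> linarith
  refine ⟨p.1 - q.1, p.2 - q.2, ⌊g q⌋ - ⌊g p⌋, ?_, ?_, ?_, ?_⟩
  · by_contra hc
    apply hne
    ext <;> omega
  · have h1 : |(p.1 : ℤ) - q.1| ≤ A' := by rw [abs_le]; omega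
    have h2 : |((p.1 - q.1 : ℤ) : ℝ)| ≤ A' := by exact_mod_cast h1
    linarith
  · have h1 : |(p.2 : ℤ) - q.2| ≤ Y' := by rw [abs_le]; omega
    have h2 : |((p.2 - q.2 : ℤ) : ℝ)| ≤ Y' := by exact_mod_cast h1
    linarith
  · have e : ((p.1 - q.1 : ℤ) : ℝ) * ζ ^ 2 + ((p.2 - q.2 : ℤ) : ℝ) * ζ + ((⌊g q⌋ - ⌊g p⌋ : ℤ) : ℝ)
        = Int.fract (g p) - Int.fract (g q) := by
      simp only [Int.fract, g]; push_cast; ring
    rw [e]
    have h1 : ((M : ℝ) + 1) = (A' + 1) * (Y' + 1) := by exact_mod_cast hM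
    have h2 : A * Y ≤ M + 1 := by rw [h1]; gcongr
    have h3 : (3 : ℝ) ≤ M := by exact_mod_cast M3
    have h4 := abs_nonneg (Int.fract (g p) - Int.fract (g q))
    nlinarith

theorem irr_factor {α : ℝ} (P : ℤ[X]) (h0 : P ≠ 0) (hα : aeval α P = 0) :
    ∃ P0 : ℤ[X], Irreducible P0 ∧ P0 ∣ P ∧ aeval α P0 = 0 := by
  induction P using WfDvdMonoid.induction_on_irreducible with
  | zero => exact absurd rfl h0
  | unit u hu =>
    have := hu.map (aeval α : ℤ[X] →ₐ[ℤ] ℝ)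
    rw [hα] at this; exact absurd this not_isUnit_zero
  | mul a i ha hi ih =>
    rw [map_mul, mul_eq_zero] at hα
    rcases hα with h | h
    · exact ⟨i, hi, dvd_mul_right _ _, h⟩
    · obtain ⟨P0, h1, h2, h3⟩ := ih ha h
      exact ⟨P0, h1, h2.mul_left _, h3⟩

theorem factor_ht {α h : ℝ} (P : ℤ[X]) (h0 : P ≠ 0) (hd : P.natDegree ≤ 2) (hα : aeval α P = 0)
    (hh : ∀ i, |(P.coeff i : ℝ)| ≤ h) :
    ∃ P0 : ℤ[X], Irreducible P0 ∧ P0.natDegree ≤ 2 ∧ aeval α P0 = 0 ∧ (Ht P0 : ℝ) ≤ (|α| + 1) * h := by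
  obtain ⟨P0, hi, ⟨Q, rfl⟩, hr⟩ := irr_factor P h0 hα
  have Q0 : Q ≠ 0 := right_ne_zero_of_mul h0
  have hdeg := natDegree_mul hi.ne_zero Q0
  have h1 : 0 ≤ h := (abs_nonneg _).trans (hh 0)
  have a0 := abs_nonneg α
  refine ⟨P0, hi, by omega, hr, Ht_le _ fun i => ?_⟩
  by_cases hQ : Q.natDegree = 0
  · have h2 := hh i
    rw [eq_C_of_natDegree_eq_zero hQ, coeff_mul_C, Int.cast_mul, abs_mul] at h2
    have h3 : Q.coeff 0 ≠ 0 := by
      intro h3; apply Q0; rw [eq_C_of_natDegree_eq_zero hQ, h3, map_zero]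
    have h4 := one_le_abs h3
    have := abs_nonneg (P0.coeff i : ℝ)
    nlinarith
  · have hl : |(P0.leadingCoeff : ℝ)| ≤ h := by
      have h2 := hh (P0 * Q).natDegree
      rw [coeff_natDegree, leadingCoeff_mul, Int.cast_mul, abs_mul] at h2
      have h4 := one_le_abs (leadingCoeff_ne_zero.2 Q0)
      have := abs_nonneg (P0.leadingCoeff : ℝ)
      nlinarith
    have hle : P0.natDegree ≤ 1 := by omega
    have h5 : |(P0.coeff 1 : ℝ)| ≤ h := by
      rcases Nat.le_one_iff_eq_zero_or_eq_one.1 hle with h6 | h6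
      · rw [coeff_eq_zero_of_natDegree_lt (by omega)]; simpa using h1
      · rw [leadingCoeff, h6] at hl; exact hl
    rw [aeval_eq_sum_range' (Nat.lt_succ_of_le hle)] at hr
    simp only [Finset.sum_range_succ, Finset.range_zero, Finset.sum_empty, zsmul_eq_mul] at hr
    rcases i with _ | _ | i
    · have : (P0.coeff 0 : ℝ) = -(α * P0.coeff 1) := by linarith
      rw [this, abs_neg, abs_mul]
      nlinarith
    · rw [zero_add]; nlinarith
    · rw [coeff_eq_zero_of_natDegree_lt (by omega)]; simp; positivity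

theorem near_root (a d e : ℝ) (hd : d ≠ 0) (h : 4 * |a| * |e| ≤ d ^ 2) :
    ∃ s : ℝ, a * s ^ 2 + d * s + e = 0 ∧ |s| * |d| ≤ 2 * |e| := by
  have hD : 0 ≤ d ^ 2 - 4 * a * e := by
    have := le_abs_self (a * e)
    rw [abs_mul] at this; linarith
  obtain ⟨u, hu1, hu2⟩ : ∃ u : ℝ, u ^ 2 = d ^ 2 - 4 * a * e ∧ |d| ≤ |d + u| := by
    have s1 := Real.sq_sqrt hD
    have s0 := Real.sqrt_nonneg (d ^ 2 - 4 * a * e)
    rcases lt_or_gt_of_ne hd with h0 | h0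
    · refine ⟨-Real.sqrt (d ^ 2 - 4 * a * e), by rw [neg_sq, s1], ?_⟩
      rw [abs_of_neg h0, abs_of_neg (by linarith)]; linarith
    · refine ⟨Real.sqrt (d ^ 2 - 4 * a * e), s1, ?_⟩
      rw [abs_of_pos h0, abs_of_pos (by linarith)]; linarith
  have d0 : 0 < |d| := abs_pos.2 hd
  have g0 : d + u ≠ 0 := abs_pos.1 (d0.trans_le hu2)
  refine ⟨-2 * e / (d + u), ?_, ?_⟩
  · field_simp
    linear_combination e * hu1
  · rw [abs_div, abs_mul, div_mul_eq_mul_div, div_le_iff₀ (abs_pos.2 g0)]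
    have : |(-2 : ℝ)| = 2 := by norm_num
    rw [this]
    gcongr

theorem core {ζ h : ℝ} (a b c : ℤ) (hd : 2 * a * ζ + b ≠ 0)
    (h1 : 4 * |(a : ℝ)| * |a * ζ ^ 2 + b * ζ + c| ≤ (2 * a * ζ + b) ^ 2)
    (h2 : 2 * |a * ζ ^ 2 + b * ζ + c| ≤ |2 * a * ζ + b|)
    (ha : |(a : ℝ)| ≤ h) (hb : |(b : ℝ)| ≤ h) (hc : |(c : ℝ)| ≤ h) :
    ∃ α : ℝ, ∃ P : ℤ[X], Irreducible P ∧ P.natDegree ≤ 2 ∧ aeval α P = 0 ∧
      (Ht P : ℝ) ≤ (|ζ| + 2) * h ∧ |ζ - α| * |2 * a * ζ + b| ≤ 2 * |a * ζ ^ 2 + b * ζ + c| := by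
  obtain ⟨s, hs1, hs2⟩ := near_root a _ _ hd h1
  have d0 := abs_pos.2 hd
  have s1 : |s| ≤ 1 := le_of_mul_le_mul_right (by linarith) d0
  have h0 : 0 ≤ h := (abs_nonneg _).trans ha
  have hco : ∀ i, (C a * X ^ 2 + C b * X + C c : ℤ[X]).coeff i
      = (if i = 2 then a else 0) + (if i = 1 then b else 0) + (if i = 0 then c else 0) := by
    intro i
    rw [coeff_add, coeff_add, coeff_C_mul_X_pow, coeff_C_mul_X, coeff_C]
  have hP0 : (C a * X ^ 2 + C b * X + C c : ℤ[X]) ≠ 0 := by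
    intro h0
    have e2 := hco 2
    have e1 := hco 1
    rw [h0, coeff_zero] at e1 e2
    norm_num at e1 e2
    apply hd; simp [← e1, ← e2]
  obtain ⟨P, p1, p2, p3, p4⟩ := factor_ht (α := ζ + s) (h := h) _ hP0 natDegree_quadratic_le
    (by
      rw [map_add, map_add, map_mul, map_mul, aeval_C, aeval_C, aeval_C, map_pow, aeval_X]
      simp only [eq_intCast]; linarith) (by
      intro i
      rw [hco]
      rcases i with _ | _ | _ | i
      · simpa using hc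
      · simpa using hb
      · simpa using ha
      · simpa using h0)
  refine ⟨ζ + s, P, p1, p2, p3, p4.trans ?_, by simpa using hs2⟩
  have := abs_add_le ζ s
  exact mul_le_mul_of_nonneg_right (by linarith) h0

end Pool.Agent.H.MP_8ce656_nt
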