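import Pool.Agent.H.MP_8ce656_nt.B

set_option autoImplicit false

namespace Pool.Agent.H.MP_8ce656_nt

open Polynomial
open Pool.Agent.H.MP_294a04_nt

theorem boxz {t : ℝ} (ht : 4 ≤ t) (ζ : ℝ) (α ξ : ℕ) :
    ∃ a b c : ℤ, (a ≠ 0 ∨ b ≠ 0) ∧ |(a : ℝ)| ≤ t ^ (α : ℤ) ∧ |(b : ℝ)| ≤ t ^ (ξ : ℤ) ∧
      |a * ζ ^ 2 + b * ζ + c| ≤ t ^ (1 - (α : ℤ) - ξ) := by
  have o : ∀ k : ℕ, (1 : ℝ) ≤ t ^ (k : ℤ) := fun k => one_le_zpow₀ (by linarith) (by omega)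
  obtain ⟨a, b, c, h1, h2, h3, h4⟩ := box ζ (o α) (o ξ)
  refine ⟨a, b, c, h1, h2, h3, ?_⟩
  have t0 : t ≠ 0 := by linarith
  rw [zpow_sub₀ t0, zpow_sub₀ t0, div_div, le_div_iff₀ (by have := o α; have := o ξ; positivity),
    zpow_one]
  linarith

def Good (ζ t : ℝ) (N : ℤ) : Prop :=
  ∃ α : ℝ, ∃ P : ℤ[X], Irreducible P ∧ P.natDegree ≤ 2 ∧ aeval α P = 0 ∧
    (Ht P : ℝ) ≤ t ^ N ∧ |ζ - α| * Ht P ≤ t ^ (-N - 1)

theorem cbound {t ζ : ℝ} (ht : 4 ≤ t) (hζ : |ζ| ≤ t ^ (1 : ℤ)) {a b c : ℤ} {β ε : ℤ}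
    (ha : |(a : ℝ)| ≤ t ^ β) (hb : |(b : ℝ)| ≤ t ^ (β + 1)) (he : |a * ζ ^ 2 + b * ζ + c| ≤ t ^ ε)
    (h : ε ≤ β + 3) : |(c : ℝ)| ≤ t ^ (β + 4) := by
  have e : (c : ℝ) = (a * ζ ^ 2 + b * ζ + c) - (a * ζ * ζ + b * ζ) := by ring
  rw [e]
  exact ps ht _ he (pa ht (β + 3) (pm ht (pm ht ha hζ) hζ) (pm ht hb hζ) (by omega) (by omega))
    (by omega) (by omega)

/-- a polynomial with a large derivative or a very small value gives a good approximation -/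
theorem good_of {t ζ : ℝ} (ht : 4 ≤ t) (hζ : |ζ| + 2 ≤ t) {a b c : ℤ} {β ε δ η N : ℤ}
    (ha : |(a : ℝ)| ≤ t ^ β) (ha' : |(a : ℝ)| ≤ t ^ η) (hb : |(b : ℝ)| ≤ t ^ η) (hc : |(c : ℝ)| ≤ t ^ η)
    (he : |a * ζ ^ 2 + b * ζ + c| ≤ t ^ ε) (hd : t ^ δ ≤ |2 * a * ζ + b|)
    (h1 : β + ε + 1 ≤ 2 * δ) (h2 : ε + 1 ≤ δ) (h3 : η + 1 ≤ N) (h4 : ε + η + 2 - δ ≤ -N - 1) :
    Good ζ t N := by
  have t0 : t ≠ 0 := by linarith
  have dp : 0 < t ^ δ := zpow_pos (by linarith) _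
  have e2 := (four ht ε).trans (pmono ht h2)
  have ep : 0 < t ^ ε := zpow_pos (by linarith) _
  obtain ⟨α, P, p1, p2, p3, p4, p5⟩ := core (ζ := ζ) a b c (abs_pos.1 (dp.trans_le hd)) (by
    have k1 := pm ht ha he
    have k2 := (four ht (β + ε)).trans (pmono ht h1)
    rw [abs_mul] at k1
    rw [two_mul, zpow_add₀ t0 δ δ] at k2
    rw [← sq_abs (2 * a * ζ + b)]
    nlinarith) (by linarith) ha' hb hc
  have hp : 0 < t ^ η := zpow_pos (by linarith) _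
  have k3 : |(Ht P : ℝ)| ≤ t ^ (η + 1) := by
    rw [Nat.abs_cast, zpow_add_one₀ t0]; nlinarith
  have k4 : |ζ - α| ≤ t ^ (ε + 1 - δ) := by
    rw [zpow_sub₀ t0, le_div_iff₀ dp]
    have := four ht ε
    have := abs_nonneg (ζ - α)
    nlinarith
  refine ⟨α, P, p1, p2, p3, ((le_abs_self _).trans k3).trans (pmono ht h3), ?_⟩
  have k5 := pm ht k4 k3
  rw [abs_mul, Nat.abs_cast] at k5
  exact k5.trans (pmono ht (by omega))

theorem dominant {t ζ : ℝ} (ht : 4 ≤ t) (hζ : |ζ| + 2 ≤ t) {a b c : ℤ} {α ξ : ℕ} (hα : 13 ≤ α)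
    (ha : |(a : ℝ)| ≤ t ^ (α : ℤ)) (hb : |(b : ℝ)| ≤ t ^ (ξ : ℤ))
    (he : |a * ζ ^ 2 + b * ζ + c| ≤ t ^ (1 - (α : ℤ) - ξ)) (hdom : t ^ ((α : ℤ) + 2) ≤ |(b : ℝ)|) :
    Good ζ t (ξ + 4) := by
  have hζ1 : |ζ| ≤ t ^ (1 : ℤ) := by rw [zpow_one]; linarith
  obtain ⟨β, b1, b2⟩ := pex ht ((one_le_zpow₀ (by linarith) (by omega)).trans hdom)
  have k1 := pcmp ht (hdom.trans b2.le)
  have k2 := pcmp ht (b1.trans hb)
  have hb' : |(b : ℝ)| ≤ t ^ (min ((β : ℤ) + 1) ξ) := by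
    rcases le_total ((β : ℤ) + 1) ξ with h | h
    · rw [min_eq_left h]; exact b2.le
    · rw [min_eq_right h]; exact hb
  have k3 := pcmp ht (hdom.trans hb)
  have hc := cbound ht hζ1 (β := min ((β : ℤ) + 1) ξ - 1) (ha.trans (pmono ht (by omega)))
    (hb'.trans (pmono ht (by omega))) he (by omega)
  have hd : t ^ ((β : ℤ) - 1) ≤ |2 * a * ζ + b| := by
    have m1 := pm ht ha hζ1
    have m2 := four ht ((α : ℤ) + 1)
    have m3 := four ht ((β : ℤ) - 1)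
    rw [sub_add_cancel] at m3
    have m4 := abs_sub_abs_le_abs_sub (b : ℝ) (-(2 * (a * ζ)))
    rw [abs_neg, abs_mul, abs_two] at m4
    have e : (b : ℝ) - -(2 * (a * ζ)) = 2 * a * ζ + b := by ring
    rw [e] at m4
    have e2 : (α : ℤ) + 1 + 1 = α + 2 := by ring
    rw [e2] at m2
    have : 0 < t ^ ((β : ℤ) - 1) := zpow_pos (by linarith) _
    linarith
  exact good_of ht hζ (η := min ((β : ℤ) + 1) ξ + 3) ha (ha.trans (pmono ht (by omega)))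
    (hb'.trans (pmono ht (by omega))) (hc.trans (pmono ht (by omega))) he hd (by omega) (by omega)
    (by omega) (by omega)

theorem good_all {ζ : ℝ} (n : ℕ)
    (hL : ∀ q p : ℤ, q ≠ 0 → 1 ≤ (2 * |(q : ℝ)|) ^ n * |q * ζ - p|) :
    ∃ N : ℕ, 0 < N ∧ ∀ t : ℝ, 4 ≤ t → |ζ| + 2 ≤ t → Good ζ t N := by
  obtain ⟨k, hk⟩ : ∃ k : ℕ, k = 15 * n + 55 := ⟨_, rfl⟩
  obtain ⟨K, hK⟩ : ∃ K : ℕ, K = k * n := ⟨_, rfl⟩
  obtain ⟨ξ, hξ⟩ : ∃ ξ : ℕ, ξ = K + k + 35 * n + 35 := ⟨_, rfl⟩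
  refine ⟨ξ + 4, by omega, fun t ht hζ => ?_⟩
  have t0 : t ≠ 0 := by linarith
  have hζ1 : |ζ| ≤ t ^ (1 : ℤ) := by rw [zpow_one]; linarith
  have L : ∀ β γ : ℕ, γ = (β + 1) * n → ∀ q p : ℤ, q ≠ 0 → |(q : ℝ)| ≤ t ^ (β : ℤ) →
      t ^ (-(γ : ℤ)) ≤ |q * ζ - p| := by
    intro β γ hγ q p hq hb
    have h1 := hL q p hq
    have h2 : (2 * |(q : ℝ)|) ^ n ≤ t ^ γ := by
      rw [hγ, pow_mul]
      apply pow_le_pow_left₀ (by positivity)
      have := four ht β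
      have := abs_nonneg (q : ℝ)
      rw [← zpow_natCast]; push_cast; linarith
    rw [zpow_neg, zpow_natCast, inv_le_iff_one_le_mul₀ (by positivity), mul_comm]
    exact h1.trans (mul_le_mul_of_nonneg_right h2 (abs_nonneg _))
  push_cast
  obtain ⟨a1, b1, c1, n1, ha1, hb1, he1⟩ := boxz ht ζ 13 ξ
  by_cases d1 : t ^ (((13 : ℕ) : ℤ) + 2) ≤ |(b1 : ℝ)|
  · exact dominant ht hζ le_rfl ha1 hb1 he1 d1
  obtain ⟨a2, b2, c2, n2, ha2, hb2, he2⟩ := boxz ht ζ k ξ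
  by_cases d2 : t ^ ((k : ℤ) + 2) ≤ |(b2 : ℝ)|
  · exact dominant ht hζ (by omega) ha2 hb2 he2 d2
  have d1' := (not_le.1 d1).le
  have d2' := (not_le.1 d2).le
  have a10 : a1 ≠ 0 := by
    rintro rfl
    have h1 := L 15 (16 * n) rfl b1 (-c1) (by simpa using n1) d1'
    have e : (b1 : ℝ) * ζ - ((-c1 : ℤ) : ℝ) = ((0 : ℤ) : ℝ) * ζ ^ 2 + b1 * ζ + c1 := by push_cast; ring
    rw [e] at h1
    have := pcmp ht (h1.trans he1)
    omega
  have a20 : a2 ≠ 0 := by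
    rintro rfl
    have h1 := L (k + 2) (K + 3 * n) (by rw [hK]; ring) b2 (-c2) (by simpa using n2) d2'
    have e : (b2 : ℝ) * ζ - ((-c2 : ℤ) : ℝ) = ((0 : ℤ) : ℝ) * ζ ^ 2 + b2 * ζ + c2 := by push_cast; ring
    rw [e] at h1
    have := pcmp ht (h1.trans he2)
    omega
  have hu : |((a1 * b2 - a2 * b1 : ℤ) : ℝ)| ≤ t ^ ((k + 16 : ℕ) : ℤ) := by
    rw [Int.cast_sub, Int.cast_mul, Int.cast_mul]
    exact ps ht _ (pm ht ha1 d2') (pm ht ha2 d1') (by omega) (by omega)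
  have hR := ps ht ((k : ℤ) - ξ) (pm ht ha1 he2) (pm ht ha2 he1) (by omega) (by omega)
  have eR : (a1 : ℝ) * (a2 * ζ ^ 2 + b2 * ζ + c2) - a2 * (a1 * ζ ^ 2 + b1 * ζ + c1)
      = ((a1 * b2 - a2 * b1 : ℤ) : ℝ) * ζ - ((a2 * c1 - a1 * c2 : ℤ) : ℝ) := by push_cast; ring
  have u0 : a1 * b2 - a2 * b1 = 0 := by
    by_contra hne
    have h1 := L (k + 16) (K + 17 * n) (by rw [hK]; ring) _ (a2 * c1 - a1 * c2) hne hu
    rw [← eR] at h1
    have := pcmp ht (h1.trans hR)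
    omega
  have v0 : a2 * c1 - a1 * c2 = 0 := by
    rw [eR, u0, Int.cast_zero, zero_mul, zero_sub, abs_neg] at hR
    exact pint ht hR (by omega)
  rw [u0, v0, Int.cast_zero, zero_mul, sub_zero, sub_eq_zero] at eR
  have he1' := pm ht ha1 he2
  rw [eR, abs_mul] at he1'
  have he1'' := (le_mul_of_one_le_left (abs_nonneg _) (one_le_abs a20)).trans he1'
  have two' : |((2 : ℤ) : ℝ)| ≤ t ^ (1 : ℤ) := by rw [zpow_one]; norm_num; linarith
  have hd := L 14 (15 * n) rfl (2 * a1) (-b1) (by omega)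
    (by rw [Int.cast_mul]; exact (pm ht two' ha1).trans (pmono ht (by omega)))
  have e : ((2 * a1 : ℤ) : ℝ) * ζ - ((-b1 : ℤ) : ℝ) = 2 * a1 * ζ + b1 := by push_cast; ring
  rw [e] at hd
  have hc := cbound ht hζ1 (β := 14) (ha1.trans (pmono ht (by omega)))
    (d1'.trans (pmono ht (by omega))) he1 (by omega)
  exact good_of ht hζ (η := 18) ha1 (ha1.trans (pmono ht (by omega)))
    (d1'.trans (pmono ht (by omega))) (hc.trans (pmono ht (by omega))) he1'' hd (by omega) (by omega)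
    (by omega) (by omega)

theorem main (ζ : ℝ) (hT : Transcendental ℤ ζ) :
    Liouville ζ ↔ ∀ n : ℕ, 1 ≤ n → IsLUB (SS ζ n) 1 := by
  constructor
  · intro hL n hn
    refine ⟨fun w hw => upper hL n hw, fun b hb => le_of_forall_lt_imp_le_of_dense fun w hw => ?_⟩
    exact hb (lower hL.irrational hn hw)
  · intro h
    by_contra hL
    have hI : ∀ a b : ℤ, b ≠ 0 → ζ ≠ a / b := by
      intro a b hb he
      apply hT
      refine ⟨C b * X - C a, ?_, ?_⟩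
      · intro h0
        have := congrArg (fun P : ℤ[X] => P.coeff 1) h0
        simp only [coeff_sub, coeff_C_mul, coeff_X_one, mul_one, coeff_C_succ, sub_zero, coeff_zero] at this
        exact hb this
      · have : (b : ℝ) ≠ 0 := by exact_mod_cast hb
        rw [map_sub, map_mul, aeval_C, aeval_C, aeval_X, he]
        simp only [eq_intCast]; field_simp; ring
    simp only [Liouville, not_forall, not_exists, not_and, not_lt] at hL
    obtain ⟨n, hn⟩ := hL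
    have pos : ∀ q p : ℤ, 0 < q → 1 ≤ (2 * |(q : ℝ)|) ^ n * |q * ζ - p| := by
      intro q p hq
      have q1 : (1 : ℝ) ≤ q := by exact_mod_cast hq
      have h1 := hn (2 * p) (2 * q) (by omega) (hI _ _ (by omega))
      have e : (q : ℝ) * ζ - p = q * (ζ - ((2 * p : ℤ) : ℝ) / ((2 * q : ℤ) : ℝ)) := by
        push_cast; field_simp
      rw [div_le_iff₀ (by positivity)] at h1
      rw [e, abs_mul, abs_of_pos (by linarith : (0 : ℝ) < q)]
      push_cast at h1 ⊢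
      have : 0 ≤ (2 * (q : ℝ)) ^ n * |ζ - 2 * p / (2 * q)| := by positivity
      nlinarith
    obtain ⟨N, N0, hN⟩ := good_all (ζ := ζ) n (fun q p hq => by
      rcases lt_or_gt_of_ne hq with h0 | h0
      · have := pos (-q) (-p) (by omega)
        rw [Int.cast_neg, abs_neg, ← abs_neg (_ - _)] at this
        convert this using 3
        push_cast; ring
      · exact pos q p h0)
    have Np : (0 : ℝ) < N := by exact_mod_cast N0
    have hw : 1 + 1 / (N : ℝ) ∈ SS ζ 2 := by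
      refine ⟨(|ζ| + 4) ^ N, fun H hH => ?_⟩
      have z0 := abs_nonneg ζ
      have H0 : 0 < H := lt_of_lt_of_le (by positivity) hH
      set t := H ^ (1 / (N : ℝ)) with ht
      have tN : t ^ N = H := by
        rw [ht, one_div, Real.rpow_inv_natCast_pow H0.le N0.ne']
      have t0 : 0 < t := Real.rpow_pos_of_pos H0 _
      have t1 : |ζ| + 4 ≤ t := le_of_pow_le_pow_left₀ N0.ne' t0.le (by rwa [tN])
      obtain ⟨α, P, p1, p2, p3, p4, p5⟩ := hN t (by linarith) (by linarith)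
      have h1 := one_le_Ht p1.ne_zero
      refine ⟨α, P, p1, p2, p3, by rwa [zpow_natCast, tN] at p4, ?_, ?_⟩
      · rw [abs_pos, sub_ne_zero]
        rintro rfl
        exact hT ⟨P, p1.ne_zero, p3⟩
      · rw [inv_mul_eq_div, le_div_iff₀ (by linarith)]
        refine p5.trans (le_of_eq ?_)
        rw [neg_add, Real.rpow_add H0, Real.rpow_neg_one, Real.rpow_neg H0.le, ← ht, ← tN,
          zpow_sub₀ t0.ne', zpow_neg, zpow_natCast, zpow_one, div_eq_mul_inv]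
    have := (h 2 (by norm_num)).1 hw
    have : 0 < 1 / (N : ℝ) := by positivity
    linarith

end Pool.Agent.H.MP_8ce656_nt
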